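import Mathlib

set_option autoImplicit false

namespace Pool.Agent.H157R3.MMS

/-- The list of the twelve islands with the three agents' integer weights. -/
def L : List (ℕ × ℕ × ℕ) :=
  [(1071, 1071, 1071), (1099, 1099, 1100), (1047, 1048, 1047), (1003, 1004, 1004),
   (1008, 1007, 1008), (1088, 1088, 1088), (1012, 1012, 1011), (1112, 1112, 1112),
   (1044, 1043, 1044), (1000, 1000, 1000), (1084, 1084, 1084), (1092, 1092, 1091)]

/-- Weight of island `j` for agent `i`. -/
def w : Fin 3 → Fin 12 → ℕ :=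
  ![![1071, 1099, 1047, 1003, 1008, 1088, 1012, 1112, 1044, 1000, 1084, 1092],
    ![1071, 1099, 1048, 1004, 1007, 1088, 1012, 1112, 1043, 1000, 1084, 1092],
    ![1071, 1100, 1047, 1004, 1008, 1088, 1011, 1112, 1044, 1000, 1084, 1091]]

/-- Exhaustive check over all ways to give the listed islands to the three agents,
agent `i` receiving at most `ci` of them. -/
def chk : List (ℕ × ℕ × ℕ) → ℕ → ℕ → ℕ → ℕ → ℕ → ℕ → Bool
  | [], _, _, _, s0, s1, s2 => Nat.blt s0 4220 || (Nat.blt s1 4220 || Nat.blt s2 4220)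
  | (w0, w1, w2) :: t, c0, c1, c2, s0, s1, s2 =>
    (Nat.beq c0 0 || chk t (c0 - 1) c1 c2 (s0 + w0) s1 s2) &&
    ((Nat.beq c1 0 || chk t c0 (c1 - 1) c2 s0 (s1 + w1) s2) &&
     (Nat.beq c2 0 || chk t c0 c1 (c2 - 1) s0 s1 (s2 + w2)))

def val0 : List (ℕ × ℕ × ℕ) → List (Fin 3) → ℕ
  | a :: t, x :: o => (if x = 0 then a.1 else 0) + val0 t o
  | _, _ => 0

def val1 : List (ℕ × ℕ × ℕ) → List (Fin 3) → ℕ
  | a :: t, x :: o => (if x = 1 then a.2.1 else 0) + val1 t o
  | _, _ => 0

def val2 : List (ℕ × ℕ × ℕ) → List (Fin 3) → ℕ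
  | a :: t, x :: o => (if x = 2 then a.2.2 else 0) + val2 t o
  | _, _ => 0

def cnt (k : Fin 3) : List (Fin 3) → ℕ
  | [] => 0
  | x :: o => (if x = k then 1 else 0) + cnt k o

theorem chk_sound : ∀ (l : List (ℕ × ℕ × ℕ)) (o : List (Fin 3)) (c0 c1 c2 s0 s1 s2 : ℕ),
    o.length = l.length → cnt 0 o ≤ c0 → cnt 1 o ≤ c1 → cnt 2 o ≤ c2 →
    chk l c0 c1 c2 s0 s1 s2 = true →
    s0 + val0 l o < 4220 ∨ s1 + val1 l o < 4220 ∨ s2 + val2 l o < 4220 := by
  intro l
  induction l with
  | nil =>
    intro o c0 c1 c2 s0 s1 s2 hlen _ _ _ h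
    have ho : o = [] := by simpa using hlen
    subst ho
    simpa [chk, val0, val1, val2, Nat.blt_eq] using h
  | cons a t ih =>
    intro o c0 c1 c2 s0 s1 s2 hlen h0 h1 h2 h
    obtain ⟨w0, w1, w2⟩ := a
    cases o with
    | nil => simp at hlen
    | cons x o =>
      have hlen' : o.length = t.length := by simpa using hlen
      simp only [chk, Bool.and_eq_true, Bool.or_eq_true] at h
      obtain ⟨ha, hb, hc⟩ := h
      have hx : x = 0 ∨ x = 1 ∨ x = 2 := by
        fin_cases x <;> simp
      rcases hx with rfl | rfl | rfl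
      · simp only [cnt] at h0 h1 h2
        have e1 : ¬ ((0 : Fin 3) = 1) := by decide
        have e2 : ¬ ((0 : Fin 3) = 2) := by decide
        simp only [if_true, e1, e2, if_false, zero_add] at h0 h1 h2
        rcases ha with ha | ha
        · have := Nat.eq_of_beq_eq_true ha; omega
        · have := ih o (c0 - 1) c1 c2 (s0 + w0) s1 s2 hlen' (by omega) h1 h2 ha
          simp only [val0, val1, val2, if_true, e1, e2, if_false, zero_add]
          omega
      · simp only [cnt] at h0 h1 h2
        have e1 : ¬ ((1 : Fin 3) = 0) := by decide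
        have e2 : ¬ ((1 : Fin 3) = 2) := by decide
        simp only [if_true, e1, e2, if_false, zero_add] at h0 h1 h2
        rcases hb with hb | hb
        · have := Nat.eq_of_beq_eq_true hb; omega
        · have := ih o c0 (c1 - 1) c2 s0 (s1 + w1) s2 hlen' h0 (by omega) h2 hb
          simp only [val0, val1, val2, if_true, e1, e2, if_false, zero_add]
          omega
      · simp only [cnt] at h0 h1 h2
        have e1 : ¬ ((2 : Fin 3) = 0) := by decide
        have e2 : ¬ ((2 : Fin 3) = 1) := by decide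
        simp only [if_true, e1, e2, if_false, zero_add] at h0 h1 h2
        rcases hc with hc | hc
        · have := Nat.eq_of_beq_eq_true hc; omega
        · have := ih o c0 c1 (c2 - 1) s0 s1 (s2 + w2) hlen' h0 h1 (by omega) hc
          simp only [val0, val1, val2, if_true, e1, e2, if_false, zero_add]
          omega

theorem chk_L : chk L 4 4 4 0 0 0 = true := by decide +kernel

theorem finite_check (f : Fin 12 → Fin 3) (hf : ∀ i, ∑ j, (if f j = i then 1 else 0) = 4) :
    ∃ i, ∑ j, (if f j = i then w i j else 0) < 4220 := by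
  have c : ∀ k, cnt k (List.ofFn f) = ∑ j, (if f j = k then 1 else 0) := by
    intro k
    simp [Fin.sum_univ_succ, List.ofFn_succ, cnt, -Finset.sum_boole]
  have h := chk_sound L (List.ofFn f) 4 4 4 0 0 0 (by simp [L]) (by rw [c, hf]) (by rw [c, hf])
    (by rw [c, hf]) chk_L
  have v0 : val0 L (List.ofFn f) = ∑ j, (if f j = 0 then w 0 j else 0) := by
    simp [Fin.sum_univ_succ, List.ofFn_succ, val0, L, w]
  have v1 : val1 L (List.ofFn f) = ∑ j, (if f j = 1 then w 1 j else 0) := by
    simp [Fin.sum_univ_succ, List.ofFn_succ, val1, L, w]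
  have v2 : val2 L (List.ofFn f) = ∑ j, (if f j = 2 then w 2 j else 0) := by
    simp [Fin.sum_univ_succ, List.ofFn_succ, val2, L, w]
  rw [v0, v1, v2] at h
  simp only [zero_add] at h
  rcases h with h | h | h
  · exact ⟨0, h⟩
  · exact ⟨1, h⟩
  · exact ⟨2, h⟩

end Pool.Agent.H157R3.MMS
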