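import Pool.Agent.H157R3.SphPoly

set_option autoImplicit false

namespace Pool.Agent.H157R3.Sph

open Finset

section comb

variable {V : Type} [Fintype V] [DecidableEq V]

/-- non-faces with `k` elements -/
def nonf (Δ : SCx V) (k : ℕ) : Finset (Finset V) :=
  (powersetCard k univ).filter fun F => F ∉ Δ.faces

/-- sets with `k` elements containing `τ` -/
def up (τ : Finset V) (k : ℕ) : Finset (Finset V) :=
  (powersetCard k univ).filter fun F => τ ⊆ F

theorem mem_nonf {Δ : SCx V} {k : ℕ} {F : Finset V} :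
    F ∈ nonf Δ k ↔ F.card = k ∧ F ∉ Δ.faces := by
  unfold nonf
  rw [mem_filter, mem_powersetCard]
  simp

theorem mem_up {τ : Finset V} {k : ℕ} {F : Finset V} :
    F ∈ up τ k ↔ F.card = k ∧ τ ⊆ F := by
  unfold up
  rw [mem_filter, mem_powersetCard]
  simp

theorem card_nonf (Δ : SCx V) (k : ℕ) :
    (nonf Δ k).card + numFaces Δ k = (Fintype.card V).choose k := by
  have h1 : Δ.faces.filter (fun F => F.card = k) =
      (powersetCard k univ).filter fun F => F ∈ Δ.faces := by
    ext F
    rw [mem_filter, mem_filter, mem_powersetCard]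
    simp [and_comm]
  unfold numFaces nonf
  rw [h1, add_comm, Finset.card_filter_add_card_filter_not, card_powersetCard, card_univ]

theorem card_up (τ : Finset V) (k : ℕ) (hk : τ.card ≤ k) :
    (up τ k).card = (Fintype.card V - τ.card).choose (k - τ.card) := by
  have h1 : (up τ k).card = (powersetCard (k - τ.card) τᶜ).card := by
    symm
    refine card_bij (fun S _ => S ∪ τ) ?_ ?_ ?_
    · intro S hS
      rw [mem_powersetCard] at hS
      rw [mem_up]
      have hd : Disjoint S τ := by
        rw [disjoint_left]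
        intro x hx hx'
        exact (mem_compl.1 (hS.1 hx)) hx'
      exact ⟨by rw [card_union_of_disjoint hd, hS.2]; omega, subset_union_right⟩
    · intro S hS T hT h
      rw [mem_powersetCard] at hS hT
      have e : ∀ X : Finset V, X ⊆ τᶜ → (X ∪ τ) \ τ = X := by
        intro X hX
        rw [union_sdiff_right]
        refine sdiff_eq_self_of_disjoint ?_
        rw [disjoint_left]
        intro x hx hx'
        exact (mem_compl.1 (hX hx)) hx'
      rw [← e S hS.1, ← e T hT.1, h]
    · intro F hF
      rw [mem_up] at hF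
      refine ⟨F \ τ, ?_, sdiff_union_of_subset hF.2⟩
      rw [mem_powersetCard]
      refine ⟨fun x hx => mem_compl.2 (mem_sdiff.1 hx).2, ?_⟩
      rw [card_sdiff_of_subset hF.2, hF.1]
  rw [h1, card_powersetCard, card_compl]

theorem exists_missing (Δ : SCx V) (F : Finset V) (hF : F ∉ Δ.faces) :
    ∃ M, M ⊆ F ∧ IsMissing Δ M := by
  induction F using Finset.strongInduction with
  | H F ih =>
    by_cases h : ∀ ρ, ρ ⊂ F → ρ ∈ Δ.faces
    · exact ⟨F, Subset.refl _, hF, h⟩
    · push Not at h
      obtain ⟨ρ, hρ, hρ2⟩ := h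
      obtain ⟨M, hM, hM2⟩ := ih ρ hρ hρ2
      exact ⟨M, hM.trans hρ.1, hM2⟩

theorem numFaces_one (Δ : SCx V) : numFaces Δ 1 = Fintype.card V := by
  unfold numFaces
  rw [← card_univ]
  symm
  refine card_bij (fun v _ => {v}) ?_ ?_ ?_
  · intro v _
    exact mem_filter.2 ⟨Δ.vertex v, card_singleton v⟩
  · intro v _ w _ h
    exact singleton_injective h
  · intro F hF
    obtain ⟨v, hv⟩ := card_eq_one.1 (mem_filter.1 hF).2
    exact ⟨v, mem_univ _, hv.symm⟩

/-- Every set meeting all missing faces is large. -/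
theorem hitting {Δ : SCx V} {d : ℕ} (hdim : ∀ F ∈ Δ.faces, F.card ≤ d) (T : Finset V)
    (hT : ∀ M, IsMissing Δ M → (M ∩ T).Nonempty) : Fintype.card V ≤ d + T.card := by
  by_cases h : Tᶜ ∈ Δ.faces
  · have := hdim _ h
    rw [card_compl] at this
    omega
  · exfalso
    obtain ⟨M, hM, hM2⟩ := exists_missing Δ _ h
    obtain ⟨x, hx⟩ := hT M hM2
    rw [mem_inter] at hx
    exact (mem_compl.1 (hM hx.1)) hx.2

end comb

section blocks

variable {k : ℕ} (m : Fin k → ℕ) (hm : ∀ a, 2 ≤ m a)

/-- the blocks -/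
def blk (a : Fin k) : Finset (Σ a : Fin k, Fin (m a)) := univ.filter fun v => v.1 = a

theorem card_blk (a : Fin k) : (blk m a).card = m a := by
  have h : blk m a = (univ : Finset (Fin (m a))).map ⟨fun x => (⟨a, x⟩ : Σ a : Fin k, Fin (m a)),
      fun x y h => by simpa using h⟩ := by
    ext ⟨b, x⟩
    unfold blk
    rw [mem_filter, mem_map]
    constructor
    · rintro ⟨_, h⟩
      simp only at h
      subst h
      exact ⟨x, mem_univ _, rfl⟩
    · rintro ⟨y, _, h⟩
      refine ⟨mem_univ _, ?_⟩
      have := (Sigma.mk.inj h).1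
      exact this.symm
  rw [h, card_map, card_univ, Fintype.card_fin]

theorem notMem_join_iff (F : Finset (Σ a : Fin k, Fin (m a))) :
    F ∉ (joinBd m hm).faces ↔ ∃ a, blk m a ⊆ F := by
  show F ∉ univ.filter _ ↔ _
  rw [mem_filter]
  constructor
  · intro h
    have h2 : ¬ ∀ a, ∃ x : Fin (m a), (⟨a, x⟩ : Σ a : Fin k, Fin (m a)) ∉ F :=
      fun h' => h ⟨mem_univ _, h'⟩
    push Not at h2
    obtain ⟨a, ha⟩ := h2
    refine ⟨a, ?_⟩
    rintro ⟨b, x⟩ hb
    have : b = a := (mem_filter.1 hb).2
    subst this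
    exact ha x
  · rintro ⟨a, ha⟩ ⟨_, h⟩
    obtain ⟨x, hx⟩ := h a
    exact hx (ha (mem_filter.2 ⟨mem_univ _, rfl⟩))

end blocks

section count

variable {V : Type} [Fintype V] [DecidableEq V] {i d q r : ℕ} (hi : 1 ≤ i) (hr : 1 ≤ r)

include hi hr in
theorem sz_ge (hri : r ≤ i) (a : Fin (q + 1)) : r + 1 ≤ sz i q r a := by
  unfold sz; split_ifs <;> omega

/-- The missing faces: at most one special one and at most `q` others. -/
theorem structure_missing (hri : r ≤ i) (Δ : SCx V)
    (hnum : ∀ k, numFaces Δ k = numFaces (KK i q r hi hr) k)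
    (hmiss : ∀ τ, IsMissing Δ τ → τ.card ≤ i + 1) :
    ∃ (S : Finset (Finset V)) (τ0 : Finset V), S.card ≤ q ∧ (∀ M ∈ S, M.card = i + 1) ∧
      τ0.card = r + 1 ∧ ∀ M, IsMissing Δ M → M = τ0 ∨ M ∈ S := by
  classical
  set K := KK i q r hi hr with hK
  have hcardV : Fintype.card V = Fintype.card (Σ a : Fin (q + 1), Fin (sz i q r a)) := by
    rw [← numFaces_one Δ, hnum 1, numFaces_one K]
  have hnonf : ∀ k, (nonf Δ k).card = (nonf K k).card := by
    intro k
    have h1 := card_nonf Δ k
    have h2 := card_nonf K k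
    rw [hnum k, hcardV] at h1
    omega
  have hKmem : ∀ F, F ∉ K.faces ↔ ∃ a, blk (sz i q r) a ⊆ F :=
    fun F => notMem_join_iff (sz i q r) (two_le_sz hi hr) F
  have hsmall : ∀ k, k ≤ r → nonf Δ k = ∅ := by
    intro k hk
    rw [← card_eq_zero, hnonf k, card_eq_zero, eq_empty_iff_forall_notMem]
    intro F hF
    rw [mem_nonf] at hF
    obtain ⟨a, ha⟩ := (hKmem F).1 hF.2
    have h1 := card_le_card ha
    rw [card_blk] at h1
    have h2 := sz_ge (q := q) hi hr hri a
    omega
  have hlast : sz i q r (Fin.last q) = r + 1 := by unfold sz; rw [if_pos rfl]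
  have hnlast : ∀ a, a ≠ Fin.last q → sz i q r a = i + 1 := by
    intro a ha; unfold sz; rw [if_neg ha]
  rcases Nat.lt_or_ge r i with hlt | hge
  · -- r < i
    set R := blk (sz i q r) (Fin.last q) with hR
    have hRcard : R.card = r + 1 := by rw [hR, card_blk, hlast]
    have hKup : ∀ k, k ≤ i → nonf K k = up R k := by
      intro k hk
      ext F
      rw [mem_nonf, mem_up, hKmem]
      constructor
      · rintro ⟨h1, a, ha⟩
        refine ⟨h1, ?_⟩
        have h2 := card_le_card ha
        rw [card_blk, h1] at h2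
        have h3 : a = Fin.last q := by
          by_contra h3
          rw [hnlast a h3] at h2
          omega
        rw [h3] at ha
        exact ha
      · rintro ⟨h1, h2⟩
        exact ⟨h1, _, h2⟩
    have h1 : (nonf Δ (r + 1)).card = 1 := by
      rw [hnonf, hKup (r + 1) hlt, card_up _ _ hRcard.le, hRcard, Nat.sub_self, Nat.choose_zero_right]
    obtain ⟨τ0, hτ0⟩ := card_eq_one.1 h1
    have hτ0m : τ0 ∈ nonf Δ (r + 1) := by rw [hτ0]; exact mem_singleton_self _
    rw [mem_nonf] at hτ0m
    have hupeq : ∀ k, r + 1 ≤ k → (up τ0 k).card = (up R k).card := by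
      intro k hk
      rw [card_up _ _ (by rw [hτ0m.1]; exact hk), card_up _ _ (by rw [hRcard]; exact hk), hτ0m.1,
        hRcard, hcardV]
    have hsub : ∀ k, up τ0 k ⊆ nonf Δ k := by
      intro k F hF
      rw [mem_up] at hF
      rw [mem_nonf]
      exact ⟨hF.1, fun h => hτ0m.2 (Δ.down F h _ hF.2)⟩
    refine ⟨nonf Δ (i + 1) \ up τ0 (i + 1), τ0, ?_, ?_, hτ0m.1, ?_⟩
    · rw [card_sdiff_of_subset (hsub _), hnonf, hupeq (i + 1) (by omega)]
      have h2 : nonf K (i + 1) ⊆ up R (i + 1) ∪
          (univ : Finset (Fin q)).image (fun a => blk (sz i q r) a.castSucc) := by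
        intro F hF
        rw [mem_nonf, hKmem] at hF
        obtain ⟨hc, a, ha⟩ := hF
        rw [mem_union, mem_up]
        by_cases h3 : a = Fin.last q
        · rw [h3] at ha
          exact Or.inl ⟨hc, ha⟩
        · right
          rw [mem_image]
          refine ⟨a.castPred h3, mem_univ _, ?_⟩
          rw [Fin.castSucc_castPred]
          refine eq_of_subset_of_card_le ha ?_
          rw [card_blk, hnlast a h3, hc]
      have h3 := (card_le_card h2).trans (card_union_le _ _)
      have h4 : ((univ : Finset (Fin q)).image (fun a => blk (sz i q r) a.castSucc)).card ≤ q := by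
        refine card_image_le.trans ?_
        rw [card_univ, Fintype.card_fin]
      omega
    · intro M hM
      exact (mem_nonf.1 (mem_sdiff.1 hM).1).1
    · intro M hM
      have hMc := hmiss M hM
      have hM1 : M ∈ nonf Δ M.card := mem_nonf.2 ⟨rfl, hM.1⟩
      have hM2 : τ0 ⊆ M → M = τ0 := by
        intro h
        by_contra hne
        exact hτ0m.2 (hM.2 τ0 ⟨h, fun h' => hne (Subset.antisymm h' h)⟩)
      rcases Nat.lt_or_ge r M.card with h5 | h5
      · rcases Nat.lt_or_ge M.card (i + 1) with h6 | h6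
        · left
          have h7 : up τ0 M.card = nonf Δ M.card := by
            refine eq_of_subset_of_card_le (hsub _) ?_
            rw [hnonf, hKup _ (by omega), hupeq _ h5]
          rw [← h7, mem_up] at hM1
          exact hM2 hM1.2
        · have h8 : M.card = i + 1 := by omega
          right
          rw [mem_sdiff, mem_nonf, mem_up]
          refine ⟨⟨h8, hM.1⟩, ?_⟩
          rintro ⟨_, h9⟩
          have := hM2 h9
          rw [this, hτ0m.1] at h8
          omega
      · rw [hsmall _ h5] at hM1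
        exact absurd hM1 (notMem_empty _)
  · -- r = i
    have hrieq : r = i := le_antisymm hri hge
    have hall : ∀ a, sz i q r a = i + 1 := by
      intro a; unfold sz; split_ifs <;> omega
    have h2 : nonf K (i + 1) ⊆ (univ : Finset (Fin (q + 1))).image (fun a => blk (sz i q r) a) := by
      intro F hF
      rw [mem_nonf, hKmem] at hF
      obtain ⟨hc, a, ha⟩ := hF
      rw [mem_image]
      refine ⟨a, mem_univ _, eq_of_subset_of_card_le ha ?_⟩
      rw [card_blk, hall, hc]
    have h3 : (nonf Δ (i + 1)).card ≤ q + 1 := by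
      rw [hnonf]
      refine (card_le_card h2).trans (card_image_le.trans ?_)
      rw [card_univ, Fintype.card_fin]
    have h4 : (nonf Δ (i + 1)).Nonempty := by
      rw [← card_pos, hnonf, card_pos]
      refine ⟨blk (sz i q r) (Fin.last q), ?_⟩
      rw [mem_nonf, card_blk, hall, hKmem]
      exact ⟨rfl, _, Subset.refl _⟩
    obtain ⟨τ0, hτ0⟩ := h4
    refine ⟨(nonf Δ (i + 1)).erase τ0, τ0, ?_, ?_, ?_, ?_⟩
    · rw [card_erase_of_mem hτ0]; omega
    · intro M hM
      exact (mem_nonf.1 (mem_erase.1 hM).2).1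
    · rw [(mem_nonf.1 hτ0).1, hrieq]
    · intro M hM
      have hMc := hmiss M hM
      have hM1 : M ∈ nonf Δ M.card := mem_nonf.2 ⟨rfl, hM.1⟩
      rcases Nat.lt_or_ge r M.card with h5 | h5
      · have h6 : M.card = i + 1 := by omega
        rw [h6] at hM1
        by_cases h7 : M = τ0
        · exact Or.inl h7
        · exact Or.inr (mem_erase.2 ⟨h7, hM1⟩)
      · rw [hsmall _ h5] at hM1
        exact absurd hM1 (notMem_empty _)

/-- Equality of face numbers forces the complex to be `K(i, d-1)`. -/
theorem iso_of_numFaces (hri : r ≤ i) (hd : d = q * i + r) (Δ : SCx V)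
    (hdim : ∀ F ∈ Δ.faces, F.card ≤ d)
    (hnum : ∀ k, numFaces Δ k = numFaces (KK i q r hi hr) k)
    (hmiss : ∀ τ, IsMissing Δ τ → τ.card ≤ i + 1) : Iso Δ (KK i q r hi hr) := by
  classical
  obtain ⟨S, τ0, hS, hScard, hτ0, hMF⟩ := structure_missing hi hr hri Δ hnum hmiss
  have hcardV : Fintype.card V = q * (i + 1) + (r + 1) := by
    rw [← numFaces_one Δ, hnum 1, numFaces_one (KK i q r hi hr), Fintype.card_sigma,
      ← sum_sz' i q r]
    simp
  -- missing faces are nonempty
  have hne : ∀ M, IsMissing Δ M → M.Nonempty := by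
    intro M hM
    rw [nonempty_iff_ne_empty]
    rintro rfl
    exact hM.1 Δ.empty_mem
  let MF : Finset (Finset V) := univ.filter fun M => IsMissing Δ M
  have hMFmem : ∀ M, M ∈ MF ↔ IsMissing Δ M := fun M => by simp [MF]
  have hMFsub : MF ⊆ insert τ0 S := by
    intro M hM
    rw [mem_insert]
    exact hMF M ((hMFmem M).1 hM)
  have hMFle : MF.card ≤ q + 1 :=
    (card_le_card hMFsub).trans ((card_insert_le _ _).trans (by omega))
  -- hitting sets
  have hhit : ∀ T : Finset V, (∀ M, IsMissing Δ M → (M ∩ T).Nonempty) → q + 1 ≤ T.card := by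
    intro T hT
    have := hitting hdim T hT
    rw [hcardV, hd] at this
    have e : q * (i + 1) = q * i + q := by ring
    omega
  -- a choice of a vertex in each missing face
  have hpick : ∃ c : Finset V → V, ∀ M, IsMissing Δ M → c M ∈ M := by
    have hV : Nonempty V := Fintype.card_pos_iff.1 (by rw [hcardV]; omega)
    have h1 : ∀ M : Finset V, ∃ v : V, M.Nonempty → v ∈ M := by
      intro M
      by_cases h : M.Nonempty
      · obtain ⟨v, hv⟩ := h
        exact ⟨v, fun _ => hv⟩
      · exact ⟨Classical.arbitrary V, fun h' => absurd h' h⟩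
    choose c hc using h1
    exact ⟨c, fun M hM => hc M (hne M hM)⟩
  obtain ⟨c, hc⟩ := hpick
  have hMFge : q + 1 ≤ MF.card := by
    refine (hhit (MF.image c) ?_).trans card_image_le
    intro M hM
    exact ⟨c M, mem_inter.2 ⟨hc M hM, mem_image_of_mem _ ((hMFmem M).2 hM)⟩⟩
  have hMFcard : MF.card = q + 1 := le_antisymm hMFle hMFge
  have hins : (insert τ0 S).card ≤ q + 1 := (card_insert_le _ _).trans (by omega)
  have hMFeq : MF = insert τ0 S := eq_of_subset_of_card_le hMFsub (by rw [hMFcard]; exact hins)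
  have hτ0S : τ0 ∉ S := by
    intro h
    rw [insert_eq_of_mem h] at hMFeq
    rw [hMFeq] at hMFcard
    omega
  have hScard' : S.card = q := by
    rw [hMFeq, card_insert_of_notMem hτ0S] at hMFcard
    omega
  -- pairwise disjoint
  have hdisj : ∀ M1 M2, IsMissing Δ M1 → IsMissing Δ M2 → M1 ≠ M2 → Disjoint M1 M2 := by
    intro M1 M2 h1 h2 h12
    by_contra hnd
    rw [not_disjoint_iff] at hnd
    obtain ⟨v, hv1, hv2⟩ := hnd
    have h3 := hhit (insert v (((MF.erase M1).erase M2).image c)) (by
      intro M hM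
      by_cases e1 : M = M1
      · exact ⟨v, mem_inter.2 ⟨by rw [e1]; exact hv1, mem_insert_self _ _⟩⟩
      · by_cases e2 : M = M2
        · exact ⟨v, mem_inter.2 ⟨by rw [e2]; exact hv2, mem_insert_self _ _⟩⟩
        · refine ⟨c M, mem_inter.2 ⟨hc M hM, mem_insert_of_mem (mem_image_of_mem _ ?_)⟩⟩
          rw [mem_erase, mem_erase]
          exact ⟨e2, e1, (hMFmem M).2 hM⟩)
    have h4 : (insert v (((MF.erase M1).erase M2).image c)).card ≤ q := by
      refine (card_insert_le _ _).trans ?_
      have h5 : ((MF.erase M1).erase M2).card = MF.card - 1 - 1 := by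
        rw [card_erase_of_mem, card_erase_of_mem ((hMFmem M1).2 h1)]
        rw [mem_erase]
        exact ⟨Ne.symm h12, (hMFmem M2).2 h2⟩
      have h6 := card_image_le (s := (MF.erase M1).erase M2) (f := c)
      have h7 : 1 < MF.card := by
        rw [one_lt_card]
        exact ⟨M1, (hMFmem M1).2 h1, M2, (hMFmem M2).2 h2, h12⟩
      omega
    omega
  -- enumeration of the missing faces
  let eS : Fin q ≃ S := (S.equivFinOfCardEq hScard').symm
  let B : Fin (q + 1) → Finset V := Fin.snoc (α := fun _ => Finset V) (fun a => (eS a).1) τ0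
  have hBlast : B (Fin.last q) = τ0 := Fin.snoc_last _ _
  have hBcast : ∀ a : Fin q, B a.castSucc = (eS a).1 := fun a => Fin.snoc_castSucc _ _ _
  have hBmem : ∀ a, IsMissing Δ (B a) := by
    intro a
    rw [← hMFmem, hMFeq, mem_insert]
    refine Fin.lastCases ?_ (fun a => ?_) a
    · exact Or.inl hBlast
    · right; rw [hBcast]; exact (eS a).2
  have hBsurj : ∀ M, IsMissing Δ M → ∃ a, B a = M := by
    intro M hM
    rw [← hMFmem, hMFeq, mem_insert] at hM
    rcases hM with h | h
    · exact ⟨Fin.last q, by rw [hBlast, h]⟩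
    · refine ⟨(eS.symm ⟨M, h⟩).castSucc, ?_⟩
      rw [hBcast, Equiv.apply_symm_apply]
  have hBinj : Function.Injective B := by
    intro a b
    refine Fin.lastCases ?_ (fun a => ?_) a
    · refine Fin.lastCases ?_ (fun b => ?_) b
      · intro _; rfl
      · intro h
        rw [hBlast, hBcast] at h
        exact absurd (by rw [h]; exact (eS b).2) hτ0S
    · refine Fin.lastCases ?_ (fun b => ?_) b
      · intro h
        rw [hBlast, hBcast] at h
        exact absurd (by rw [← h]; exact (eS a).2) hτ0S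
      · intro h
        rw [hBcast, hBcast] at h
        rw [eS.injective (Subtype.ext h)]
  have hBcard : ∀ a, (B a).card = sz i q r a := by
    intro a
    refine Fin.lastCases ?_ (fun a => ?_) a
    · rw [hBlast, hτ0]; unfold sz; rw [if_pos rfl]
    · rw [hBcast, hScard _ (eS a).2]; unfold sz; rw [if_neg (Fin.castSucc_lt_last a).ne]
  -- the isomorphism
  let f : ∀ a, Fin (sz i q r a) ≃ B a := fun a => ((B a).equivFinOfCardEq (hBcard a)).symm
  let φ : (Σ a : Fin (q + 1), Fin (sz i q r a)) → V := fun p => (f p.1 p.2).1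
  have hφmem : ∀ p, φ p ∈ B p.1 := fun p => (f p.1 p.2).2
  have hφinj : Function.Injective φ := by
    rintro ⟨a, x⟩ ⟨b, y⟩ h
    have hab : a = b := by
      by_contra hne'
      have h1 := hdisj (B a) (B b) (hBmem a) (hBmem b) (fun h => hne' (hBinj h))
      rw [disjoint_left] at h1
      refine h1 (hφmem ⟨a, x⟩) ?_
      rw [h]
      exact hφmem ⟨b, y⟩
    subst hab
    have h2 : f a x = f a y := Subtype.ext h
    rw [(f a).injective h2]
  have hφbij : Function.Bijective φ := by
    rw [Fintype.bijective_iff_injective_and_card]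
    refine ⟨hφinj, ?_⟩
    rw [hcardV, Fintype.card_sigma, ← sum_sz' i q r]
    simp
  let e : (Σ a : Fin (q + 1), Fin (sz i q r a)) ≃ V := Equiv.ofBijective φ hφbij
  refine ⟨e.symm, fun F => ?_⟩
  have hmap : ∀ a x, (⟨a, x⟩ : Σ a : Fin (q + 1), Fin (sz i q r a)) ∈
      F.map e.symm.toEmbedding ↔ φ ⟨a, x⟩ ∈ F := by
    intro a x
    rw [mem_map]
    constructor
    · rintro ⟨v, hv, hv2⟩
      have : e ⟨a, x⟩ = v := by
        rw [← hv2]; exact e.apply_symm_apply v
      have h3 : φ ⟨a, x⟩ = v := this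
      rw [h3]; exact hv
    · intro h
      refine ⟨_, h, ?_⟩
      exact e.symm_apply_apply ⟨a, x⟩
  constructor
  · intro hF
    show _ ∈ univ.filter _
    rw [mem_filter]
    refine ⟨mem_univ _, fun a => ?_⟩
    by_contra hcon
    push Not at hcon
    apply (hBmem a).1
    refine Δ.down F hF _ ?_
    intro v hv
    have h1 := (hmap a ((f a).symm ⟨v, hv⟩)).1 (hcon _)
    have h2 : φ ⟨a, (f a).symm ⟨v, hv⟩⟩ = v := by
      show (f a ((f a).symm ⟨v, hv⟩)).1 = v
      rw [Equiv.apply_symm_apply]
    rw [h2] at h1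
    exact h1
  · intro hF
    by_contra hcon
    obtain ⟨M, hM, hM2⟩ := exists_missing Δ F hcon
    obtain ⟨a, ha⟩ := hBsurj M hM2
    have hF2 := (mem_filter.1 (show F.map e.symm.toEmbedding ∈ univ.filter _ from hF)).2
    obtain ⟨x, hx⟩ := hF2 a
    apply hx
    rw [hmap]
    apply hM
    rw [← ha]
    exact hφmem ⟨a, x⟩

end count

end Pool.Agent.H157R3.Sph
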