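import Mathlib

/-!
Finite simplicial complexes, their Z/2 homology, homology spheres, face numbers, and joins of
boundaries of simplices.
-/

set_option autoImplicit false

namespace Pool.Agent.H157R3.Sph

/-- A finite abstract simplicial complex with vertex set `V`. -/
structure SCx (V : Type) where
  faces : Finset (Finset V)
  empty_mem : ∅ ∈ faces
  down : ∀ F ∈ faces, ∀ G, G ⊆ F → G ∈ faces
  vertex : ∀ v : V, {v} ∈ faces

section homology

variable {V : Type} [DecidableEq V]

/-- The faces with `j` vertices (that is, of dimension `j - 1`) of a family `K` of finite sets. -/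
abbrev Cells (K : Finset (Finset V)) (j : ℕ) : Type :=
  {F : Finset V // F ∈ K.filter fun F => F.card = j}

/-- The simplicial boundary map with `Z/2` coefficients, from chains of faces with `j + 1` vertices
to chains of faces with `j` vertices (for `j = 0` it is the augmentation). -/
def bd (K : Finset (Finset V)) (j : ℕ) :
    (Cells K (j + 1) → ZMod 2) →ₗ[ZMod 2] (Cells K j → ZMod 2) where
  toFun c G := ∑ F : Cells K (j + 1), if G.1 ⊆ F.1 then c F else 0
  map_add' c c' := by
    funext G
    simp only [Pi.add_apply]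
    rw [← Finset.sum_add_distrib]
    refine Finset.sum_congr rfl fun F _ => ?_
    split_ifs
    · rfl
    · rw [add_zero]
  map_smul' a c := by
    funext G
    simp only [Pi.smul_apply, smul_eq_mul, RingHom.id_apply]
    rw [Finset.mul_sum]
    refine Finset.sum_congr rfl fun F _ => ?_
    split_ifs
    · rfl
    · rw [mul_zero]

/-- The cycles among the chains of faces with `j` vertices. -/
def cycles (K : Finset (Finset V)) : (j : ℕ) → Submodule (ZMod 2) (Cells K j → ZMod 2)
  | 0 => ⊤
  | j + 1 => LinearMap.ker (bd K j)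

/-- The dimension over `Z/2` of the reduced homology in dimension `j - 1`: cycles on the faces with
`j` vertices modulo boundaries. -/
noncomputable def betti (K : Finset (Finset V)) (j : ℕ) : ℕ :=
  Module.finrank (ZMod 2)
    (cycles K j ⧸ (LinearMap.range (bd K j)).comap (cycles K j).subtype)

/-- The faces of the link of `σ`. -/
def link (Δ : SCx V) (σ : Finset V) : Finset (Finset V) :=
  Δ.faces.filter fun G => Disjoint G σ ∧ G ∪ σ ∈ Δ.faces

/-- A `Z/2`-homology sphere of dimension `d - 1`: a pure `(d-1)`-dimensional complex in which the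
link of every face `σ` has the reduced `Z/2`-homology of a sphere of dimension `d - 1 - |σ|`. -/
structure IsHomologySphere (d : ℕ) (Δ : SCx V) : Prop where
  card_le : ∀ F ∈ Δ.faces, F.card ≤ d
  pure : ∀ F ∈ Δ.faces, ∃ G ∈ Δ.faces, F ⊆ G ∧ G.card = d
  link_homology : ∀ σ ∈ Δ.faces, ∀ j, betti (link Δ σ) j = if j = d - σ.card then 1 else 0

/-- Missing faces: non-faces all of whose proper subsets are faces. -/
def IsMissing (Δ : SCx V) (τ : Finset V) : Prop :=
  τ ∉ Δ.faces ∧ ∀ ρ, ρ ⊂ τ → ρ ∈ Δ.faces

/-- The class `S(i, d-1)`: homology `(d-1)`-spheres all of whose missing faces have dimension at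
most `i`, that is, at most `i + 1` vertices. -/
structure InS (i d : ℕ) (Δ : SCx V) : Prop where
  sphere : IsHomologySphere d Δ
  missing : ∀ τ, IsMissing Δ τ → τ.card ≤ i + 1

/-- The number `f_{k-1}` of faces with `k` vertices. -/
def numFaces (Δ : SCx V) (k : ℕ) : ℕ := (Δ.faces.filter fun F => F.card = k).card

/-- The `h`-numbers `h_j = ∑_{k ≤ j} (-1)^{j-k} C(d-k, d-j) f_{k-1}`. -/
def hnum (d : ℕ) (Δ : SCx V) (j : ℕ) : ℤ :=
  ∑ k ∈ Finset.range (j + 1), (-1) ^ (j - k) * ((d - k).choose (d - j) : ℤ) * (numFaces Δ k : ℤ)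

/-- The `g`-numbers `g_0 = 1`, `g_j = h_j - h_{j-1}`. -/
def gnum (d : ℕ) (Δ : SCx V) : ℕ → ℤ
  | 0 => 1
  | j + 1 => hnum d Δ (j + 1) - hnum d Δ j

end homology

/-- Isomorphism of simplicial complexes. -/
def Iso {V W : Type} (Δ : SCx V) (Γ : SCx W) : Prop :=
  ∃ e : V ≃ W, ∀ F : Finset V, F ∈ Δ.faces ↔ F.map e.toEmbedding ∈ Γ.faces

/-- The join of the boundary complexes of simplices with `m a ≥ 2` vertices, `a = 0, …, k - 1`: the
vertices are the pairs `(a, x)`, and a set is a face when it contains no full block. -/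
def joinBd {k : ℕ} (m : Fin k → ℕ) (hm : ∀ a, 2 ≤ m a) : SCx (Σ a : Fin k, Fin (m a)) where
  faces := Finset.univ.filter fun F => ∀ a, ∃ x : Fin (m a), (⟨a, x⟩ : Σ a : Fin k, Fin (m a)) ∉ F
  empty_mem := by
    rw [Finset.mem_filter]
    exact ⟨Finset.mem_univ _, fun a => ⟨⟨0, by have := hm a; omega⟩, Finset.notMem_empty _⟩⟩
  down := by
    intro F hF G hG
    rw [Finset.mem_filter] at hF ⊢
    refine ⟨Finset.mem_univ _, fun a => ?_⟩
    obtain ⟨x, hx⟩ := hF.2 a
    exact ⟨x, fun h => hx (hG h)⟩
  vertex := by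
    intro v
    rw [Finset.mem_filter]
    refine ⟨Finset.mem_univ _, fun a => ?_⟩
    by_cases h : v = ⟨a, ⟨0, by have := hm a; omega⟩⟩
    · refine ⟨⟨1, by have := hm a; omega⟩, ?_⟩
      rw [Finset.mem_singleton, h]
      intro h'
      have h2 := eq_of_heq (Sigma.mk.inj h').2
      exact absurd (congrArg Fin.val h2) (by norm_num)
    · exact ⟨⟨0, by have := hm a; omega⟩, by rw [Finset.mem_singleton]; exact fun h' => h h'.symm⟩

/-- The block sizes of `K(i, d-1)`: `q` blocks with `i + 1` vertices and one with `r + 1`. -/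
def sz (i q r : ℕ) (a : Fin (q + 1)) : ℕ := if a = Fin.last q then r + 1 else i + 1

theorem two_le_sz {i q r : ℕ} (hi : 1 ≤ i) (hr : 1 ≤ r) (a : Fin (q + 1)) : 2 ≤ sz i q r a := by
  unfold sz; split_ifs <;> omega

/-- The complex `K(i, d-1)`, `d = q i + r`: the join of `q` copies of the boundary of the
`i`-simplex and of the boundary of the `r`-simplex. -/
def KK (i q r : ℕ) (hi : 1 ≤ i) (hr : 1 ≤ r) : SCx (Σ a : Fin (q + 1), Fin (sz i q r a)) :=
  joinBd (sz i q r) (two_le_sz hi hr)

end Pool.Agent.H157R3.Sph
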