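import Pool.Agent.H157R3.SphDefs

set_option autoImplicit false

namespace Pool.Agent.H157R3.Sph

open Finset

section homology

variable {V : Type} [DecidableEq V]

theorem mem_cells {K : Finset (Finset V)} {j : ℕ} (F : Cells K j) : F.1 ∈ K ∧ F.1.card = j :=
  Finset.mem_filter.1 F.2

/-- `∂∂ = 0`. -/
theorem bd_bd (K : Finset (Finset V)) (hK : ∀ F ∈ K, ∀ G, G ⊆ F → G ∈ K) (j : ℕ)
    (c : Cells K (j + 2) → ZMod 2) : bd K j (bd K (j + 1) c) = 0 := by
  funext G
  show (∑ H : Cells K (j + 1), if G.1 ⊆ H.1 then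
    (∑ F : Cells K (j + 2), if H.1 ⊆ F.1 then c F else 0) else 0) = 0
  have h1 : ∀ H : Cells K (j + 1), (if G.1 ⊆ H.1 then
      (∑ F : Cells K (j + 2), if H.1 ⊆ F.1 then c F else 0) else 0) =
      ∑ F : Cells K (j + 2), if G.1 ⊆ H.1 ∧ H.1 ⊆ F.1 then c F else 0 := by
    intro H
    by_cases h : G.1 ⊆ H.1
    · simp [h]
    · simp [h]
  rw [Finset.sum_congr rfl fun H _ => h1 H, Finset.sum_comm]
  refine Finset.sum_eq_zero fun F _ => ?_
  rw [← Finset.sum_filter, Finset.sum_const]
  by_cases hGF : G.1 ⊆ F.1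
  · have hG := mem_cells G
    have hF := mem_cells F
    have hcard : (F.1 \ G.1).card = 2 := by
      rw [Finset.card_sdiff_of_subset hGF, hF.2, hG.2]; omega
    have hbij : (Finset.univ.filter fun H : Cells K (j + 1) => G.1 ⊆ H.1 ∧ H.1 ⊆ F.1).card =
        (F.1 \ G.1).card := by
      symm
      refine Finset.card_bij (fun x hx => ⟨insert x G.1, ?_⟩) ?_ ?_ ?_
      · rw [Finset.mem_sdiff] at hx
        rw [Finset.mem_filter]
        refine ⟨hK _ hF.1 _ (Finset.insert_subset hx.1 hGF), ?_⟩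
        rw [Finset.card_insert_of_notMem hx.2, hG.2]
      · intro x hx
        rw [Finset.mem_sdiff] at hx
        rw [Finset.mem_filter]
        exact ⟨Finset.mem_univ _, Finset.subset_insert _ _, Finset.insert_subset hx.1 hGF⟩
      · intro x hx y hy hxy
        rw [Finset.mem_sdiff] at hx hy
        have h2 : insert x G.1 = insert y G.1 := congrArg Subtype.val hxy
        have h3 : x ∈ insert y G.1 := by rw [← h2]; exact Finset.mem_insert_self _ _
        rcases Finset.mem_insert.1 h3 with h | h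
        · exact h
        · exact absurd h hx.2
      · intro H hH
        rw [Finset.mem_filter] at hH
        have hH2 := mem_cells H
        have hc1 : (H.1 \ G.1).card = 1 := by
          rw [Finset.card_sdiff_of_subset hH.2.1, hH2.2, hG.2]; omega
        obtain ⟨x, hx⟩ := Finset.card_eq_one.1 hc1
        have hxm : x ∈ H.1 \ G.1 := by rw [hx]; exact Finset.mem_singleton_self x
        rw [Finset.mem_sdiff] at hxm
        refine ⟨x, Finset.mem_sdiff.2 ⟨hH.2.2 hxm.1, hxm.2⟩, Subtype.ext ?_⟩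
        show insert x G.1 = H.1
        apply Finset.eq_of_subset_of_card_le (Finset.insert_subset hxm.1 hH.2.1)
        rw [Finset.card_insert_of_notMem hxm.2, hG.2, hH2.2]
    rw [hbij, hcard, two_nsmul]
    exact CharTwo.add_self_eq_zero _
  · have : (Finset.univ.filter fun H : Cells K (j + 1) => G.1 ⊆ H.1 ∧ H.1 ⊆ F.1) = ∅ := by
      rw [Finset.filter_eq_empty_iff]
      intro H _ hH
      exact hGF (hH.1.trans hH.2)
    rw [this, Finset.card_empty, zero_nsmul]

theorem range_le_cycles (K : Finset (Finset V)) (hK : ∀ F ∈ K, ∀ G, G ⊆ F → G ∈ K) (j : ℕ) :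
    LinearMap.range (bd K j) ≤ cycles K j := by
  cases j with
  | zero => exact le_top
  | succ j =>
    rintro _ ⟨c, rfl⟩
    exact LinearMap.mem_ker.2 (bd_bd K hK j c)

/-- the rank of the boundary map -/
noncomputable def rk (K : Finset (Finset V)) (j : ℕ) : ℕ :=
  Module.finrank (ZMod 2) (LinearMap.range (bd K j))

/-- the dimension of the space of cycles -/
noncomputable def zk (K : Finset (Finset V)) (j : ℕ) : ℕ :=
  Module.finrank (ZMod 2) (cycles K j)

theorem betti_add (K : Finset (Finset V)) (hK : ∀ F ∈ K, ∀ G, G ⊆ F → G ∈ K) (j : ℕ) :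
    betti K j + rk K j = zk K j := by
  unfold betti rk zk
  have h1 := Submodule.finrank_quotient_add_finrank
    ((LinearMap.range (bd K j)).comap (cycles K j).subtype)
  have h2 : Module.finrank (ZMod 2) ((LinearMap.range (bd K j)).comap (cycles K j).subtype) =
      Module.finrank (ZMod 2) (LinearMap.range (bd K j)) :=
    LinearEquiv.finrank_eq (Submodule.comapSubtypeEquivOfLe (range_le_cycles K hK j))
  rw [← h1, h2]

theorem zk_zero (K : Finset (Finset V)) : zk K 0 = Fintype.card (Cells K 0) := by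
  unfold zk
  show Module.finrank (ZMod 2) (⊤ : Submodule (ZMod 2) (Cells K 0 → ZMod 2)) = _
  rw [finrank_top, Module.finrank_fintype_fun_eq_card]

theorem zk_succ (K : Finset (Finset V)) (j : ℕ) :
    rk K j + zk K (j + 1) = Fintype.card (Cells K (j + 1)) := by
  unfold zk rk
  show Module.finrank (ZMod 2) (LinearMap.range (bd K j)) +
    Module.finrank (ZMod 2) (LinearMap.ker (bd K j)) = _
  rw [LinearMap.finrank_range_add_finrank_ker, Module.finrank_fintype_fun_eq_card]

/-- Euler–Poincaré, truncated. -/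
theorem euler_trunc (K : Finset (Finset V)) (hK : ∀ F ∈ K, ∀ G, G ⊆ F → G ∈ K) (N : ℕ) :
    ∑ j ∈ range (N + 1), (-1 : ℤ) ^ j * (Fintype.card (Cells K j) : ℤ) =
      ∑ j ∈ range (N + 1), (-1 : ℤ) ^ j * (betti K j : ℤ) + (-1) ^ N * (rk K N : ℤ) := by
  induction N with
  | zero =>
    rw [Finset.sum_range_one, Finset.sum_range_one, pow_zero, one_mul, one_mul, one_mul, ← zk_zero,
      ← betti_add K hK 0]
    push_cast
    ring
  | succ N ih =>
    rw [Finset.sum_range_succ, ih, Finset.sum_range_succ _ (N + 1), ← zk_succ,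
      ← betti_add K hK (N + 1)]
    push_cast
    ring

theorem euler (K : Finset (Finset V)) (hK : ∀ F ∈ K, ∀ G, G ⊆ F → G ∈ K) (N : ℕ)
    (hN : ∀ F ∈ K, F.card ≤ N) :
    ∑ F ∈ K, (-1 : ℤ) ^ F.card = ∑ j ∈ range (N + 1), (-1 : ℤ) ^ j * (betti K j : ℤ) := by
  have h0 : rk K N = 0 := by
    unfold rk
    have hempty : IsEmpty (Cells K (N + 1)) := by
      constructor
      intro F
      have := mem_cells F
      have h2 := hN _ this.1
      omega
    have : bd K N = 0 := by
      apply LinearMap.ext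
      intro c
      funext G
      show (∑ F : Cells K (N + 1), if G.1 ⊆ F.1 then c F else 0) = 0
      exact Finset.sum_of_isEmpty _
    rw [this, LinearMap.range_zero, finrank_bot]
  have h1 := euler_trunc K hK N
  rw [h0, Nat.cast_zero, mul_zero, add_zero] at h1
  rw [← h1]
  have h2 : ∀ j, (-1 : ℤ) ^ j * (Fintype.card (Cells K j) : ℤ) =
      ∑ F ∈ K.filter (fun F => F.card = j), (-1 : ℤ) ^ F.card := by
    intro j
    rw [Fintype.card_coe, Finset.sum_congr rfl (g := fun _ => (-1 : ℤ) ^ j)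
      (fun F hF => by rw [(Finset.mem_filter.1 hF).2]), Finset.sum_const, nsmul_eq_mul]
    ring
  rw [Finset.sum_congr rfl fun j _ => h2 j]
  exact (Finset.sum_fiberwise_of_maps_to
    (fun F hF => Finset.mem_range.2 (Nat.lt_succ_of_le (hN F hF))) _).symm

/-- The Eulerian property of a homology sphere. -/
theorem eulerian {d : ℕ} {Δ : SCx V} (h : IsHomologySphere d Δ) (σ : Finset V)
    (hσ : σ ∈ Δ.faces) :
    ∑ τ ∈ Δ.faces.filter (fun τ => σ ⊆ τ), (-1 : ℤ) ^ τ.card = (-1) ^ d := by
  have hK : ∀ F ∈ link Δ σ, ∀ G, G ⊆ F → G ∈ link Δ σ := by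
    intro F hF G hG
    unfold link at hF ⊢
    rw [Finset.mem_filter] at hF ⊢
    exact ⟨Δ.down F hF.1 G hG, Finset.disjoint_of_subset_left hG hF.2.1,
      Δ.down _ hF.2.2 _ (Finset.union_subset_union_left hG)⟩
  have hσd : σ.card ≤ d := h.card_le σ hσ
  have hN : ∀ F ∈ link Δ σ, F.card ≤ d := by
    intro F hF
    exact h.card_le F (Finset.mem_filter.1 hF).1
  have h1 := euler (link Δ σ) hK d hN
  have h2 : ∑ j ∈ range (d + 1), (-1 : ℤ) ^ j * (betti (link Δ σ) j : ℤ) = (-1) ^ (d - σ.card) := by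
    rw [Finset.sum_eq_single (d - σ.card)]
    · rw [h.link_homology σ hσ, if_pos rfl]; simp
    · intro j _ hj
      rw [h.link_homology σ hσ, if_neg hj]; simp
    · intro hj
      exact absurd (Finset.mem_range.2 (by omega)) hj
  have h3 : ∑ τ ∈ Δ.faces.filter (fun τ => σ ⊆ τ), (-1 : ℤ) ^ τ.card =
      (-1) ^ σ.card * ∑ F ∈ link Δ σ, (-1 : ℤ) ^ F.card := by
    rw [Finset.mul_sum]
    symm
    refine Finset.sum_bij (fun F _ => F ∪ σ) ?_ ?_ ?_ ?_
    · intro F hF
      rw [link, Finset.mem_filter] at hF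
      exact Finset.mem_filter.2 ⟨hF.2.2, Finset.subset_union_right⟩
    · intro F hF G hG hFG
      rw [link, Finset.mem_filter] at hF hG
      have e : ∀ X : Finset V, Disjoint X σ → (X ∪ σ) \ σ = X := by
        intro X hX
        rw [Finset.union_sdiff_right]
        exact Finset.sdiff_eq_self_of_disjoint hX
      rw [← e F hF.2.1, ← e G hG.2.1, hFG]
    · intro τ hτ
      rw [Finset.mem_filter] at hτ
      refine ⟨τ \ σ, ?_, Finset.sdiff_union_of_subset hτ.2⟩
      rw [link, Finset.mem_filter]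
      exact ⟨Δ.down τ hτ.1 _ Finset.sdiff_subset, Finset.sdiff_disjoint, by
        rw [Finset.sdiff_union_of_subset hτ.2]; exact hτ.1⟩
    · intro F hF
      rw [link, Finset.mem_filter] at hF
      rw [Finset.card_union_of_disjoint hF.2.1, pow_add, mul_comm]
  rw [h3, h1, h2, ← pow_add]
  congr 1
  omega

end homology

end Pool.Agent.H157R3.Sph
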