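import Pool.Agent.H157R3.SphEuler

set_option autoImplicit false

namespace Pool.Agent.H157R3.Sph

open Finset Polynomial

section

variable {V : Type} [DecidableEq V]

/-- `∑_F x^{|F|}` -/
noncomputable def fpoly (Δ : SCx V) : ℤ[X] := ∑ F ∈ Δ.faces, X ^ F.card

theorem fpoly_coeff (Δ : SCx V) (k : ℕ) : (fpoly Δ).coeff k = numFaces Δ k := by
  unfold fpoly numFaces
  rw [Polynomial.finsetSum_coeff]
  simp only [Polynomial.coeff_X_pow]
  rw [Finset.sum_boole]
  simp only [eq_comm]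

/-- `Σ_F x^{|F|}` composed with `-1 - x` -/
theorem fpoly_comp {d : ℕ} (Δ : SCx V) (h : ∀ σ ∈ Δ.faces,
    ∑ τ ∈ Δ.faces.filter (fun τ => σ ⊆ τ), (-1 : ℤ) ^ τ.card = (-1) ^ d) :
    (fpoly Δ).comp (-1 - X) = (-1) ^ d * fpoly Δ := by
  unfold fpoly
  have h0 : (∑ F ∈ Δ.faces, (X : ℤ[X]) ^ F.card).comp (-1 - X) =
      ∑ F ∈ Δ.faces, ((X : ℤ[X]) ^ F.card).comp (-1 - X) :=
    map_sum (Polynomial.compRingHom (-1 - X : ℤ[X])) _ _
  rw [h0]
  have h1 : ∀ τ : Finset V, ((X : ℤ[X]) ^ τ.card).comp (-1 - X) =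
      ∑ σ ∈ τ.powerset, ((-1 : ℤ[X]) ^ τ.card) * X ^ σ.card := by
    intro τ
    rw [← Finset.mul_sum]
    have h2 : ∑ σ ∈ τ.powerset, (X : ℤ[X]) ^ σ.card = (X + 1) ^ τ.card := by
      rw [← Finset.sum_pow_mul_eq_add_pow]
      refine Finset.sum_congr rfl fun σ _ => ?_
      rw [one_pow, mul_one]
    rw [h2, Polynomial.X_pow_comp, ← mul_pow]
    congr 1
    ring
  rw [Finset.sum_congr rfl fun τ _ => h1 τ, Finset.mul_sum]
  rw [Finset.sum_comm' (t' := Δ.faces) (s' := fun σ => Δ.faces.filter (fun τ => σ ⊆ τ))]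
  · refine Finset.sum_congr rfl fun σ hσ => ?_
    rw [← Finset.sum_mul]
    congr 1
    have := congrArg (fun z : ℤ => (z : ℤ[X])) (h σ hσ)
    simpa using this
  · intro τ σ
    simp only [Finset.mem_powerset, Finset.mem_filter]
    constructor
    · rintro ⟨h1, h2⟩
      exact ⟨⟨h1, h2⟩, Δ.down τ h1 σ h2⟩
    · rintro ⟨⟨h1, h2⟩, _⟩
      exact ⟨h1, h2⟩

theorem numFaces_zero (Δ : SCx V) : numFaces Δ 0 = 1 := by
  unfold numFaces
  rw [Finset.card_eq_one]
  refine ⟨∅, ?_⟩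
  ext F
  rw [Finset.mem_filter, Finset.mem_singleton, Finset.card_eq_zero]
  constructor
  · exact fun h => h.2
  · rintro rfl
    exact ⟨Δ.empty_mem, rfl⟩

end

section compare

variable {V W : Type} [DecidableEq V] [DecidableEq W]

theorem hnum_eq_of_gnum {d m : ℕ} {Δ : SCx V} {Γ : SCx W}
    (hg : ∀ j ≤ m, gnum d Δ j = gnum d Γ j) : ∀ j ≤ m, hnum d Δ j = hnum d Γ j := by
  intro j
  induction j with
  | zero =>
    intro _
    unfold hnum
    rw [Finset.sum_range_one, Finset.sum_range_one, numFaces_zero, numFaces_zero]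
  | succ j ih =>
    intro hj
    have h1 := hg (j + 1) hj
    have h2 := ih (by omega)
    have h1' : hnum d Δ (j + 1) - hnum d Δ j = hnum d Γ (j + 1) - hnum d Γ j := h1
    rw [h2] at h1'
    linarith

theorem numFaces_eq_of_hnum {d m : ℕ} {Δ : SCx V} {Γ : SCx W}
    (hh : ∀ j ≤ m, hnum d Δ j = hnum d Γ j) : ∀ k ≤ m, numFaces Δ k = numFaces Γ k := by
  intro k
  induction k using Nat.strong_induction_on with
  | _ k ih =>
    intro hk
    have h1 := hh k hk
    unfold hnum at h1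
    rw [Finset.sum_range_succ, Finset.sum_range_succ, Nat.sub_self, Nat.choose_self] at h1
    have h2 : ∑ x ∈ range k, (-1) ^ (k - x) * ((d - x).choose (d - k) : ℤ) * (numFaces Δ x : ℤ) =
        ∑ x ∈ range k, (-1) ^ (k - x) * ((d - x).choose (d - k) : ℤ) * (numFaces Γ x : ℤ) := by
      refine Finset.sum_congr rfl fun x hx => ?_
      rw [ih x (Finset.mem_range.1 hx) (by have := Finset.mem_range.1 hx; omega)]
    rw [h2] at h1
    have h3 := add_left_cancel h1
    simpa using h3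

theorem fpoly_degree {d : ℕ} {Δ : SCx V} (h : ∀ F ∈ Δ.faces, F.card ≤ d) :
    (fpoly Δ).natDegree ≤ d := by
  unfold fpoly
  refine Polynomial.natDegree_sum_le_of_forall_le _ _ fun F hF => ?_
  rw [Polynomial.natDegree_X_pow]
  exact h F hF

/-- Two complexes satisfying the Dehn–Sommerville relations and with the same first half of the
`f`-vector have the same `f`-vector. -/
theorem fpoly_eq {d : ℕ} {Δ : SCx V} {Γ : SCx W} (h1 : ∀ F ∈ Δ.faces, F.card ≤ d)
    (h2 : ∀ F ∈ Γ.faces, F.card ≤ d)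
    (e1 : (fpoly Δ).comp (-1 - X) = (-1) ^ d * fpoly Δ)
    (e2 : (fpoly Γ).comp (-1 - X) = (-1) ^ d * fpoly Γ)
    (hf : ∀ k ≤ d / 2, numFaces Δ k = numFaces Γ k) : fpoly Δ = fpoly Γ := by
  set D := fpoly Δ - fpoly Γ with hD
  have hdeg : D.natDegree ≤ d :=
    (Polynomial.natDegree_sub_le _ _).trans (max_le (fpoly_degree h1) (fpoly_degree h2))
  have hcomp : D.comp (-1 - X) = (-1) ^ d * D := by
    rw [hD, Polynomial.sub_comp, e1, e2]; ring
  have hX : X ^ (d / 2 + 1) ∣ D := by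
    rw [Polynomial.X_pow_dvd_iff]
    intro k hk
    rw [hD, Polynomial.coeff_sub, fpoly_coeff, fpoly_coeff, hf k (by omega), sub_self]
  have hX1 : (X + 1) ^ (d / 2 + 1) ∣ D := by
    obtain ⟨Q, hQ⟩ := hX
    have h3 : D.comp (-1 - X) = (-1 - X) ^ (d / 2 + 1) * Q.comp (-1 - X) := by
      rw [hQ, Polynomial.mul_comp, Polynomial.X_pow_comp]
    rw [hcomp] at h3
    have h4 : D = (X + 1) ^ (d / 2 + 1) * ((-1) ^ (d + (d / 2 + 1)) * Q.comp (-1 - X)) := by
      have h5 : D = (-1) ^ d * ((-1) ^ d * D) := by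
        rw [← mul_assoc, ← mul_pow]; simp
      rw [h5, h3]
      have h6 : (-1 - X : ℤ[X]) = -1 * (X + 1) := by ring
      rw [h6, mul_pow, pow_add]
      ring
    exact ⟨_, h4⟩
  have hcop : IsCoprime ((X : ℤ[X]) ^ (d / 2 + 1)) ((X + 1) ^ (d / 2 + 1)) := by
    refine IsCoprime.pow ?_
    exact ⟨-1, 1, by ring⟩
  have hdvd := hcop.mul_dvd hX hX1
  by_contra hne
  have hD0 : D ≠ 0 := sub_ne_zero.2 hne
  have hmon : Monic ((X : ℤ[X]) ^ (d / 2 + 1) * (X + 1) ^ (d / 2 + 1)) := by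
    refine (monic_X_pow _).mul ?_
    exact (Polynomial.monic_X_add_C 1).pow _
  have hle := Polynomial.natDegree_le_of_dvd hdvd hD0
  have hnat : ((X : ℤ[X]) ^ (d / 2 + 1) * (X + 1) ^ (d / 2 + 1)).natDegree =
      (d / 2 + 1) + (d / 2 + 1) := by
    have hm1 : Monic ((X + 1 : ℤ[X]) ^ (d / 2 + 1)) := (Polynomial.monic_X_add_C 1).pow _
    rw [Polynomial.Monic.natDegree_mul (monic_X_pow _) hm1,
      Polynomial.natDegree_X_pow, Polynomial.natDegree_pow]
    have : (X + 1 : ℤ[X]).natDegree = 1 := Polynomial.natDegree_X_add_C 1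
    rw [this, mul_one]
  rw [hnat] at hle
  omega

end compare

section join

/-- face polynomial of a join of boundaries of simplices -/
theorem fpoly_joinBd {k : ℕ} (m : Fin k → ℕ) (hm : ∀ a, 2 ≤ m a) :
    fpoly (joinBd m hm) = ∏ a, ((X + 1) ^ (m a) - X ^ (m a)) := by
  classical
  have hprod : ∀ a, ((X + 1 : ℤ[X]) ^ (m a) - X ^ (m a)) =
      ∑ F ∈ (univ : Finset (Fin (m a))).powerset.erase univ, X ^ F.card := by
    intro a
    have h2 : ∑ F ∈ (univ : Finset (Fin (m a))).powerset, (X : ℤ[X]) ^ F.card = (X + 1) ^ (m a) := by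
      have := Finset.sum_pow_mul_eq_add_pow (X : ℤ[X]) 1 (univ : Finset (Fin (m a)))
      rw [Finset.card_univ, Fintype.card_fin] at this
      rw [← this]
      refine Finset.sum_congr rfl fun σ _ => ?_
      rw [one_pow, mul_one]
    rw [← h2, ← Finset.sum_erase_add _ _ (Finset.mem_powerset_self (univ : Finset (Fin (m a)))),
      Finset.card_univ, Fintype.card_fin, add_sub_cancel_right]
  rw [Finset.prod_congr rfl fun a _ => hprod a, Finset.prod_univ_sum]
  unfold fpoly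
  symm
  refine Finset.sum_bij (fun p _ => (univ : Finset (Fin k)).sigma p) ?_ ?_ ?_ ?_
  · intro p hp
    rw [Fintype.mem_piFinset] at hp
    show _ ∈ Finset.univ.filter _
    rw [Finset.mem_filter]
    refine ⟨Finset.mem_univ _, fun a => ?_⟩
    have h1 := (Finset.mem_erase.1 (hp a)).1
    by_contra hcon
    push Not at hcon
    apply h1
    rw [Finset.eq_univ_iff_forall]
    intro x
    have := hcon x
    rw [Finset.mem_sigma] at this
    exact this.2
  · intro p _ p' _ h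
    funext a
    ext x
    have h1 : (⟨a, x⟩ : Σ a : Fin k, Fin (m a)) ∈ (univ : Finset (Fin k)).sigma p ↔
        (⟨a, x⟩ : Σ a : Fin k, Fin (m a)) ∈ (univ : Finset (Fin k)).sigma p' := by rw [h]
    rw [Finset.mem_sigma, Finset.mem_sigma] at h1
    simpa using h1
  · intro F hF
    have hF2 := (Finset.mem_filter.1 (show F ∈ Finset.univ.filter _ from hF)).2
    refine ⟨fun a => univ.filter fun x => (⟨a, x⟩ : Σ a : Fin k, Fin (m a)) ∈ F, ?_, ?_⟩
    · rw [Fintype.mem_piFinset]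
      intro a
      rw [Finset.mem_erase]
      refine ⟨?_, Finset.mem_powerset.2 (Finset.subset_univ _)⟩
      intro h
      obtain ⟨x, hx⟩ := hF2 a
      have := Finset.mem_univ x
      rw [← h, Finset.mem_filter] at this
      exact hx this.2
    · ext ⟨a, x⟩
      rw [Finset.mem_sigma]
      simp
  · intro p _
    rw [Finset.card_sigma, Finset.prod_pow_eq_pow_sum]

theorem fpoly_joinBd_comp {k : ℕ} (m : Fin k → ℕ) (hm : ∀ a, 2 ≤ m a) :
    (fpoly (joinBd m hm)).comp (-1 - X) = (-1) ^ (∑ a, (m a - 1)) * fpoly (joinBd m hm) := by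
  rw [fpoly_joinBd, Polynomial.prod_comp, ← Finset.prod_pow_eq_pow_sum, ← Finset.prod_mul_distrib]
  refine Finset.prod_congr rfl fun a _ => ?_
  obtain ⟨n, hn⟩ : ∃ n, m a = n + 1 := ⟨m a - 1, by have := hm a; omega⟩
  rw [hn, Nat.add_sub_cancel, Polynomial.sub_comp, Polynomial.pow_comp, Polynomial.pow_comp,
    Polynomial.add_comp, Polynomial.X_comp, Polynomial.one_comp]
  have h1 : (-1 - X + 1 : ℤ[X]) = -1 * X := by ring
  have h2 : (-1 - X : ℤ[X]) = -1 * (X + 1) := by ring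
  rw [h1, h2, mul_pow, mul_pow, pow_succ (-1 : ℤ[X]) n]
  ring

/-- faces of the join have at most `∑ (m a - 1)` elements -/
theorem card_le_joinBd {k : ℕ} (m : Fin k → ℕ) (hm : ∀ a, 2 ≤ m a) (F)
    (hF : F ∈ (joinBd m hm).faces) : F.card ≤ ∑ a, (m a - 1) := by
  classical
  have hF2 := (Finset.mem_filter.1 (show F ∈ Finset.univ.filter _ from hF)).2
  have h1 : F = (univ : Finset (Fin k)).sigma
      (fun a => univ.filter fun x => (⟨a, x⟩ : Σ a : Fin k, Fin (m a)) ∈ F) := by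
    ext ⟨a, x⟩
    rw [Finset.mem_sigma]
    simp
  rw [h1, Finset.card_sigma]
  refine Finset.sum_le_sum fun a _ => ?_
  obtain ⟨x, hx⟩ := hF2 a
  have h2 : (univ.filter fun x => (⟨a, x⟩ : Σ a : Fin k, Fin (m a)) ∈ F) ⊆ univ.erase x := by
    intro y hy
    rw [Finset.mem_filter] at hy
    rw [Finset.mem_erase]
    exact ⟨fun h => hx (by rw [← h]; exact hy.2), Finset.mem_univ _⟩
  have := Finset.card_le_card h2
  rw [Finset.card_erase_of_mem (Finset.mem_univ _), Finset.card_univ, Fintype.card_fin] at this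
  exact this

theorem sum_sz (i q r : ℕ) : ∑ a, (sz i q r a - 1) = q * i + r := by
  rw [Fin.sum_univ_castSucc]
  have h1 : ∀ a : Fin q, sz i q r a.castSucc - 1 = i := by
    intro a
    unfold sz
    rw [if_neg (Fin.castSucc_lt_last a).ne]
    omega
  rw [Finset.sum_congr rfl fun a _ => h1 a, Finset.sum_const, Finset.card_univ, Fintype.card_fin,
    smul_eq_mul]
  unfold sz
  rw [if_pos rfl, Nat.add_sub_cancel]

theorem sum_sz' (i q r : ℕ) : ∑ a, sz i q r a = q * (i + 1) + (r + 1) := by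
  rw [Fin.sum_univ_castSucc]
  have h1 : ∀ a : Fin q, sz i q r a.castSucc = i + 1 := by
    intro a
    unfold sz
    rw [if_neg (Fin.castSucc_lt_last a).ne]
  rw [Finset.sum_congr rfl fun a _ => h1 a, Finset.sum_const, Finset.card_univ, Fintype.card_fin,
    smul_eq_mul]
  unfold sz
  rw [if_pos rfl]

end join

end Pool.Agent.H157R3.Sph
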